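import Pool.Agent.X171.EL.Stm

set_option autoImplicit false

open MeasureTheory Set
open scoped ENNReal

namespace Pool.Agent.X97.EL

/-- The signed square root. -/
noncomputable def ph (s : ℝ) : ℝ := √s - √(-s)

theorem ph_cont : Continuous ph := by unfold ph; fun_prop

theorem ph_sq (s : ℝ) : ph s ^ 2 = |s| := by
  unfold ph
  rcases le_total 0 s with h | h
  · rw [Real.sqrt_eq_zero_of_nonpos (by linarith : -s ≤ 0), sub_zero, Real.sq_sqrt h, abs_of_nonneg h]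
  · rw [Real.sqrt_eq_zero_of_nonpos h, zero_sub, neg_sq, Real.sq_sqrt (by linarith), abs_of_nonpos h]

theorem ph_abs (s : ℝ) : ph s * |ph s| = s := by
  unfold ph
  rcases le_total 0 s with h | h
  · rw [Real.sqrt_eq_zero_of_nonpos (by linarith : -s ≤ 0), sub_zero,
      abs_of_nonneg (Real.sqrt_nonneg s), Real.mul_self_sqrt h]
  · rw [Real.sqrt_eq_zero_of_nonpos h, zero_sub, abs_neg, abs_of_nonneg (Real.sqrt_nonneg _)]
    have := Real.mul_self_sqrt (by linarith : (0:ℝ) ≤ -s)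
    linarith

theorem abs_diff (v m : ℝ) : abs (v * abs v - m * abs m) ≤ abs (v - m) * (abs v + abs m) := by
  rcases abs_cases v with ⟨h1, h2⟩ | ⟨h1, h2⟩ <;> rcases abs_cases m with ⟨h3, h4⟩ | ⟨h3, h4⟩ <;>
    rcases abs_cases (v - m) with ⟨h5, h6⟩ | ⟨h5, h6⟩ <;> rw [h1, h3, h5] <;>
    rw [abs_le] <;> constructor <;> nlinarith

theorem ph_lip (s t : ℝ) : (ph s - ph t) ^ 2 ≤ 2 * |s - t| := by
  have h1 := ph_abs s
  have h2 := ph_abs t
  set a := ph s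
  set b := ph t
  have key : (a - b) ^ 2 ≤ 2 * abs (a * abs a - b * abs b) := by
    rcases le_total a b with h | h
    · have h0 : (a - b) ^ 2 ≤ 2 * (b * abs b - a * abs a) := by
        rcases abs_cases a with ⟨h1, h2⟩ | ⟨h1, h2⟩ <;> rcases abs_cases b with ⟨h3, h4⟩ | ⟨h3, h4⟩ <;>
          rw [h1, h3] <;>
          nlinarith [sq_nonneg (a - b), sq_nonneg (a + b), mul_nonneg (sub_nonneg.2 h) (sub_nonneg.2 h)]
      have h5 := neg_abs_le (a * abs a - b * abs b)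
      linarith
    · have h0 : (a - b) ^ 2 ≤ 2 * (a * abs a - b * abs b) := by
        rcases abs_cases a with ⟨h1, h2⟩ | ⟨h1, h2⟩ <;> rcases abs_cases b with ⟨h3, h4⟩ | ⟨h3, h4⟩ <;>
          rw [h1, h3] <;>
          nlinarith [sq_nonneg (a - b), sq_nonneg (a + b), mul_nonneg (sub_nonneg.2 h) (sub_nonneg.2 h)]
      have h5 := le_abs_self (a * abs a - b * abs b)
      linarith
  rwa [h1, h2] at key

section gen

variable {Ω : Type} [MeasurableSpace Ω] {P : Measure Ω} [IsProbabilityMeasure P]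

theorem nsq (f : Lp ℝ 2 P) : ‖f‖ ^ 2 = ∫ ω, (f ω) ^ 2 ∂P := by
  rw [← real_inner_self_eq_norm_sq, L2.inner_def]
  refine integral_congr_ae (Filter.Eventually.of_forall fun ω => ?_)
  simp [pow_two]

theorem intsq (f : Lp ℝ 2 P) : Integrable (fun ω => (f ω) ^ 2) P :=
  (memLp_two_iff_integrable_sq (Lp.aestronglyMeasurable f)).1 (Lp.memLp f)

theorem memph (x : Lp ℝ 1 P) : MemLp (fun ω => ph (x ω)) 2 P := by
  have h1 : AEStronglyMeasurable (fun ω => ph (x ω)) P :=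
    ph_cont.comp_aestronglyMeasurable (Lp.aestronglyMeasurable x)
  rw [memLp_two_iff_integrable_sq h1]
  have : (fun ω => ph (x ω) ^ 2) = fun ω => |x ω| := by
    funext ω; exact ph_sq _
  rw [this]
  exact (L1.integrable_coeFn x).abs

/-- The Mazur map. -/
noncomputable def mz (x : Lp ℝ 1 P) : Lp ℝ 2 P := (memph x).toLp _

theorem mz_coe (x : Lp ℝ 1 P) : mz x =ᵐ[P] fun ω => ph (x ω) := (memph x).coeFn_toLp

theorem mz_norm (x : Lp ℝ 1 P) : ‖mz x‖ ^ 2 = ‖x‖ := by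
  rw [nsq, L1.norm_eq_integral_norm]
  refine integral_congr_ae ?_
  filter_upwards [mz_coe x] with ω h
  rw [h, ph_sq, Real.norm_eq_abs]

theorem mz_lip (x y : Lp ℝ 1 P) : ‖mz x - mz y‖ ^ 2 ≤ 2 * ‖x - y‖ := by
  rw [nsq, L1.norm_eq_integral_norm, ← integral_const_mul]
  refine integral_mono_ae (intsq _) ((L1.integrable_coeFn (x - y)).norm.const_mul 2) ?_
  filter_upwards [mz_coe x, mz_coe y, Lp.coeFn_sub (mz x) (mz y), Lp.coeFn_sub x y]
    with ω h1 h2 h3 h4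
  rw [h3, h4, Pi.sub_apply, Pi.sub_apply, h1, h2, Real.norm_eq_abs]
  exact ph_lip _ _

theorem cs {a b : Ω → ℝ} (ha : MemLp a 2 P) (hb : MemLp b 2 P) :
    (∫ ω, a ω * b ω ∂P) ^ 2 ≤ (∫ ω, a ω ^ 2 ∂P) * ∫ ω, b ω ^ 2 ∂P := by
  have h1 : inner ℝ (ha.toLp a) (hb.toLp b) = ∫ ω, a ω * b ω ∂P := by
    rw [L2.inner_def]
    refine integral_congr_ae ?_
    filter_upwards [ha.coeFn_toLp, hb.coeFn_toLp] with ω h1 h2
    rw [h1, h2]
    simp [mul_comm]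
  have h2 : ‖ha.toLp a‖ ^ 2 = ∫ ω, a ω ^ 2 ∂P := by
    rw [nsq]
    refine integral_congr_ae ?_
    filter_upwards [ha.coeFn_toLp] with ω h1
    rw [h1]
  have h3 : ‖hb.toLp b‖ ^ 2 = ∫ ω, b ω ^ 2 ∂P := by
    rw [nsq]
    refine integral_congr_ae ?_
    filter_upwards [hb.coeFn_toLp] with ω h1
    rw [h1]
  have h4 := abs_real_inner_le_norm (ha.toLp a) (hb.toLp b)
  rw [← h1, ← h2, ← h3, ← mul_pow, ← sq_abs]
  exact pow_le_pow_left₀ (abs_nonneg _) h4 2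

theorem mz_dist (x : Lp ℝ 1 P) : ∃ c : ℝ, ‖x - c • Lp.const 1 P (1 : ℝ)‖ ^ 2 ≤
    4 * ‖x‖ * (‖mz x‖ ^ 2 - (∫ ω, mz x ω ∂P) ^ 2) := by
  set v := mz x with hv
  set m := ∫ ω, v ω ∂P with hm
  have hvi : Integrable (fun ω => v ω) P := (Lp.memLp v).integrable (by norm_num)
  have hv2 : Integrable (fun ω => v ω ^ 2) P := intsq v
  have ha : MemLp (fun ω => |v ω - m|) 2 P := ((Lp.memLp v).sub (memLp_const m)).abs
  have hb : MemLp (fun ω => |v ω| + |m|) 2 P := (Lp.memLp v).abs.add (memLp_const |m|)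
  have hA : ∫ ω, |v ω - m| ^ 2 ∂P = ‖v‖ ^ 2 - m ^ 2 := by
    have : ∀ ω, |v ω - m| ^ 2 = v ω ^ 2 - 2 * m * v ω + m ^ 2 := by
      intro ω; rw [sq_abs]; ring
    simp_rw [this]
    have e1 : ∫ ω, (v ω ^ 2 - 2 * m * v ω + m ^ 2) ∂P =
        (∫ ω, (v ω ^ 2 - 2 * m * v ω) ∂P) + ∫ _, m ^ 2 ∂P :=
      integral_add (hv2.sub (hvi.const_mul (2 * m))) (integrable_const _)
    have e2 : ∫ ω, (v ω ^ 2 - 2 * m * v ω) ∂P = (∫ ω, v ω ^ 2 ∂P) - ∫ ω, 2 * m * v ω ∂P :=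
      integral_sub hv2 (hvi.const_mul (2 * m))
    rw [e1, e2, integral_const_mul, ← nsq, ← hm]
    simp
    ring
  have hmv : m ^ 2 ≤ ‖v‖ ^ 2 := by
    have : 0 ≤ ∫ ω, |v ω - m| ^ 2 ∂P := integral_nonneg fun ω => sq_nonneg _
    linarith
  have hB : ∫ ω, (|v ω| + |m|) ^ 2 ∂P ≤ 4 * ‖v‖ ^ 2 := by
    have h1 : ∫ ω, (|v ω| + |m|) ^ 2 ∂P ≤ ∫ ω, (2 * v ω ^ 2 + 2 * m ^ 2) ∂P := by
      refine integral_mono ?_ ((hv2.const_mul 2).add (integrable_const _)) fun ω => ?_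
      · exact (memLp_two_iff_integrable_sq hb.1).1 hb
      · have h5 := sq_abs (v ω)
        have h6 := sq_abs m
        show (|v ω| + |m|) ^ 2 ≤ 2 * v ω ^ 2 + 2 * m ^ 2
        nlinarith [sq_nonneg (|v ω| - |m|)]
    have e1 : ∫ ω, (2 * v ω ^ 2 + 2 * m ^ 2) ∂P =
        (∫ ω, 2 * v ω ^ 2 ∂P) + ∫ _, 2 * m ^ 2 ∂P :=
      integral_add (hv2.const_mul 2) (integrable_const _)
    rw [e1, integral_const_mul, ← nsq] at h1
    simp at h1
    linarith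
  refine ⟨m * |m|, ?_⟩
  have h1 : ‖x - (m * |m|) • Lp.const 1 P (1 : ℝ)‖ ≤ ∫ ω, |v ω - m| * (|v ω| + |m|) ∂P := by
    rw [L1.norm_eq_integral_norm]
    refine integral_mono_ae (L1.integrable_coeFn _).norm (ha.integrable_mul hb) ?_
    filter_upwards [mz_coe x, Lp.coeFn_sub x ((m * |m|) • Lp.const 1 P (1 : ℝ)),
      Lp.coeFn_smul (m * |m|) (Lp.const 1 P (1 : ℝ)), Lp.coeFn_const (p := 1) (μ := P) (1 : ℝ)]
      with ω h1 h2 h3 h4
    rw [h2, Pi.sub_apply, h3, Pi.smul_apply, h4, Real.norm_eq_abs]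
    have h5 : x ω = v ω * |v ω| := by
      rw [hv, h1, ph_abs]
    rw [h5]
    simpa using abs_diff (v ω) m
  have h0 : 0 ≤ ‖x - (m * |m|) • Lp.const 1 P (1 : ℝ)‖ := norm_nonneg _
  have h2 := pow_le_pow_left₀ h0 h1 2
  have h3 := cs ha hb
  have hx : ‖v‖ ^ 2 = ‖x‖ := mz_norm x
  have hAnn : 0 ≤ ‖v‖ ^ 2 - m ^ 2 := by linarith
  rw [hA] at h3
  calc _ ≤ _ := h2
    _ ≤ _ := h3
    _ ≤ (‖v‖ ^ 2 - m ^ 2) * (4 * ‖v‖ ^ 2) := mul_le_mul_of_nonneg_left hB hAnn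
    _ = 4 * ‖x‖ * (‖v‖ ^ 2 - m ^ 2) := by rw [hx]; ring

theorem mz_comp {f : Ω → Ω} (h : MeasurePreserving f P P) (x : Lp ℝ 1 P) :
    mz (Lp.compMeasurePreserving f h x) = Lp.compMeasurePreserving f h (mz x) := by
  apply Lp.ext
  have h1 := mz_coe (Lp.compMeasurePreserving f h x)
  have h2 := Lp.coeFn_compMeasurePreserving x h
  have h3 := Lp.coeFn_compMeasurePreserving (mz x) h
  have h4 := h.quasiMeasurePreserving.ae_eq_comp (mz_coe x)
  filter_upwards [h1, h2, h3, h4] with ω h1 h2 h3 h4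
  rw [h1, h2, h3]
  exact h4.symm

end gen

open Pool.Agent.X171.EL in
theorem t_MAZ : Pool.Agent.X171.EL.S_MAZ :=
  ⟨fun x => mz x, fun x => mz_norm x, fun x y => mz_lip x y, fun _ h x => mz_comp h x,
    fun x => mz_dist x⟩

end Pool.Agent.X97.EL
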